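import Mathlib
import Pool.Agent.MP_a703b5_ag.Fibre

/-!
A Fano conic bundle of relative Picard number two with a non-reduced fibre.
-/

open AlgebraicGeometry CategoryTheory

namespace Pool.Agent.Results.MP_a703b5_ag.DoubleLine

open Pool.Agent.MP_a703b5_ag

theorem result : ∃ (X Y : Scheme.{0}) (_ : IsIntegral X) (_ : IsIntegral Y)
    (_ : IsLocallyNoetherian X) (_ : IsLocallyNoetherian Y) (s : Y ⟶ Spec (CommRingCat.of ℂ))
    (f : X ⟶ Y), IsProjective (f ≫ s) ∧ IsProjective s ∧ Smooth (f ≫ s) ∧ Smooth s ∧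
      (∀ y : Y, IsIntegrallyClosed (Y.presheaf.stalk y)) ∧ Surjective f ∧
      (∀ U : Y.Opens, IsIso (f.app U)) ∧ (∃ D, IsAnticanonical (f ≫ s) D ∧ IsAmple D) ∧
      (∀ y : Y, topologicalKrullDim (f.fiber y) = 1) ∧
      picardNumber (f ≫ s) = 4 ∧ picardNumber s = 2 ∧
      ∃ y : Y, IsClosed {y} ∧ ¬ IsReduced (f.fiber y) := by
  obtain ⟨N⟩ := exists_model CX.charts
  obtain ⟨M⟩ := exists_model CY.charts
  have hs : Function.Surjective (N.hom M TX.data) := fun y => (fibre N M y).1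
  refine ⟨N.X, M.X, inferInstance, inferInstance, inferInstance, inferInstance, M.s,
    N.hom M TX.data, ?_⟩
  rw [Model.hom_s]
  exact ⟨N.proj, M.proj, CX_smooth N, CY_smooth M, Cox.normal M, ⟨hs⟩,
    CoxHom.isIso_app N M CX_codim θ_inj θ_surj hs, CX_fano N, fun y => (fibre N M y).2,
    CX_picard N, CY_picard M, double_line N M⟩

end Pool.Agent.Results.MP_a703b5_ag.DoubleLine
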